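import Mathlib

/-!
# MP_1b30fb_an, question Q1

The Riesz ratio of the level-2 multi-tiling sets `E_n` in `Z_p x Z_p` tends to infinity.

Idea: a set `B` of `2p` characters is a bipartite graph with `2p` vertices (the values of `b_2` and
of `b_1 + b_2`) and `2p` edges, so it contains a cycle.  The alternating vector on a short cycle is
almost killed by `T`, and for a long cycle one combines the alternating vectors of its two halves.
-/

namespace Pool.Agent.Results.MP_1b30fb_an.RieszRatioUnbounded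

open scoped ENNReal Topology Matrix.Norms.L2Operator
open Finset Filter

/-- The group `Z_p x Z_p`. -/
abbrev G (p : ℕ) : Type := ZMod p × ZMod p

/-- The character `e_b(x) = exp(2 pi i (b . x) / p)` of `Z_p x Z_p`. -/
noncomputable def chr (p : ℕ) [NeZero p] (b x : G p) : ℂ :=
  ZMod.stdAddChar (b.1 * x.1 + b.2 * x.2)

/-- The matrix `T(E, B)` with entries `e_b(x)` (rows `x` in `E`, columns `b` in `B`). -/
noncomputable def TMat (p : ℕ) [NeZero p] (E B : Finset (G p)) : Matrix E B ℂ :=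
  Matrix.of fun x b => chr p b x

/-- For a complex matrix `A`: the number `‖A‖² ‖A⁻¹‖²` (operator norms for the Euclidean norms), or
infinity when `A` is not invertible. It is written as an infimum over the (at most one) two-sided
inverse matrices `S` of `A`. -/
noncomputable def condSq {m n : Type} [Fintype m] [Fintype n] [DecidableEq m] [DecidableEq n]
    (A : Matrix m n ℂ) : ℝ≥0∞ :=
  ⨅ (S : Matrix n m ℂ) (_ : S * A = 1 ∧ A * S = 1), ENNReal.ofReal (‖A‖ ^ 2 * ‖S‖ ^ 2)

/-- The Riesz ratio of `B` relative to `E`. -/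
noncomputable def rhoOf (p : ℕ) [NeZero p] (E B : Finset (G p)) : ℝ≥0∞ := condSq (TMat p E B)

/-- The Riesz ratio of `E`: the infimum of `rhoOf E B` over all `B` with as many elements as
`E`. -/
noncomputable def rho (p : ℕ) [NeZero p] (E : Finset (G p)) : ℝ≥0∞ :=
  ⨅ (B : Finset (G p)) (_ : B.card = E.card), rhoOf p E B

/-- The set `E_n`, for the prime `p = p_n`: the union of `{0} x Z_p`, the diagonal, and the point
`(1, 0)`. -/
def En (p : ℕ) [NeZero p] : Finset (G p) :=
  (Finset.univ.image fun t : ZMod p => ((0, t) : G p)) ∪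
    (Finset.univ.image fun t : ZMod p => ((t, t) : G p)) ∪ {((1, 0) : G p)}

instance (n : ℕ) : NeZero (Nat.nth Nat.Prime n) := ⟨(Nat.prime_nth_prime n).ne_zero⟩

/-! ### Generalities on `T` -/

variable {p : ℕ} [NeZero p]

theorem norm_chr (b x : G p) : ‖chr p b x‖ = 1 := by
  rw [chr, ZMod.stdAddChar_apply]
  exact Circle.norm_coe _

/-- `T(E, B)` as a linear map between Euclidean spaces. -/
noncomputable def T (p : ℕ) [NeZero p] (E B : Finset (G p)) :
    EuclideanSpace ℂ B →L[ℂ] EuclideanSpace ℂ E :=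
  LinearMap.toContinuousLinearMap (Matrix.toEuclideanLin (TMat p E B))

theorem T_apply (E B : Finset (G p)) (a : EuclideanSpace ℂ B) (x : E) :
    T p E B a x = ∑ b : B, chr p b x * a b := by
  rw [T, LinearMap.coe_toContinuousLinearMap', Matrix.toLpLin_apply]
  rfl

/-- Lower bound for the Riesz ratio from a test vector. -/
theorem rhoOf_ge (E B : Finset (G p)) (hE : E.card = B.card) (hB : B.Nonempty) (C : ℝ)
    (a : EuclideanSpace ℂ B) (ha : a ≠ 0) (h : C * ‖T p E B a‖ ^ 2 ≤ B.card * ‖a‖ ^ 2) :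
    ENNReal.ofReal C ≤ rhoOf p E B := by
  classical
  rw [rhoOf, condSq]
  refine le_iInf₂ fun S hS => ?_
  apply ENNReal.ofReal_le_ofReal
  obtain ⟨b, hb⟩ := hB
  have hTle : ∀ v : EuclideanSpace ℂ B, ‖T p E B v‖ ≤ ‖TMat p E B‖ * ‖v‖ := fun v =>
    Matrix.l2_opNorm_mulVec (TMat p E B) v
  -- norm of T
  have hT : (B.card : ℝ) ≤ ‖TMat p E B‖ ^ 2 := by
    have h1 := hTle (EuclideanSpace.single (⟨b, hb⟩ : B) (1 : ℂ))
    rw [PiLp.norm_single, norm_one, mul_one] at h1
    have h2 : ‖T p E B (EuclideanSpace.single (⟨b, hb⟩ : B) (1 : ℂ))‖ ^ 2 = (B.card : ℝ) := by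
      rw [EuclideanSpace.norm_sq_eq]
      have : ∀ x : E, ‖T p E B (EuclideanSpace.single (⟨b, hb⟩ : B) (1 : ℂ)) x‖ ^ 2 = 1 := by
        intro x
        rw [T_apply, Finset.sum_eq_single (⟨b, hb⟩ : B)]
        · rw [PiLp.single_apply, if_pos rfl, mul_one, norm_chr, one_pow]
        · intro b' _ hb'
          rw [PiLp.single_apply, if_neg hb', mul_zero]
        · intro h
          exact absurd (Finset.mem_univ _) h
      rw [Finset.sum_congr rfl fun x _ => this x]
      simp [hE]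
    rw [← h2]
    exact pow_le_pow_left₀ (norm_nonneg _) h1 2
  -- the inverse
  have h3 : ‖a‖ ≤ ‖S‖ * ‖T p E B a‖ := by
    have h4 := Matrix.l2_opNorm_mulVec S (T p E B a)
    have h5 : S.mulVec (T p E B a : EuclideanSpace ℂ E).ofLp = a.ofLp := by
      have h6 : (T p E B a : EuclideanSpace ℂ E).ofLp = (TMat p E B).mulVec a.ofLp := rfl
      rw [h6, Matrix.mulVec_mulVec, hS.1, Matrix.one_mulVec]
    rw [h5] at h4
    exact h4
  have hapos : 0 < ‖a‖ := norm_pos_iff.mpr ha
  have hTapos : 0 < ‖T p E B a‖ := by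
    rcases (norm_nonneg (T p E B a)).eq_or_lt with h0 | h0
    · rw [← h0, mul_zero] at h3
      linarith
    · exact h0
  have h4 : ‖a‖ ^ 2 ≤ ‖S‖ ^ 2 * ‖T p E B a‖ ^ 2 := by
    rw [← mul_pow]
    exact pow_le_pow_left₀ (norm_nonneg _) h3 2
  have h5 : C * ‖T p E B a‖ ^ 2 ≤ (‖TMat p E B‖ ^ 2 * ‖S‖ ^ 2) * ‖T p E B a‖ ^ 2 := by
    calc C * ‖T p E B a‖ ^ 2 ≤ B.card * ‖a‖ ^ 2 := h
      _ ≤ ‖TMat p E B‖ ^ 2 * (‖S‖ ^ 2 * ‖T p E B a‖ ^ 2) := by
          apply mul_le_mul hT h4 (by positivity) (by positivity)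
      _ = _ := by ring
  exact le_of_mul_le_mul_right h5 (by positivity)

/-! ### The bipartite graph of `B` -/

/-- The edge of `b`: it joins the left vertex `b_2` to the right vertex `b_1 + b_2`. -/
def edge (b : G p) : Sym2 (ZMod p ⊕ ZMod p) := s(Sum.inl b.2, Sum.inr (b.1 + b.2))

omit [NeZero p] in
theorem edge_injective : Function.Injective (edge : G p → Sym2 (ZMod p ⊕ ZMod p)) := by
  rintro ⟨a, b⟩ ⟨c, d⟩ h
  simp only [edge, Sym2.eq_iff] at h
  rcases h with ⟨h1, h2⟩ | ⟨h1, h2⟩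
  · have h1' : b = d := Sum.inl_injective h1
    have h2' : a + b = c + d := Sum.inr_injective h2
    subst h1'
    rw [add_right_cancel h2']
  · cases h1

/-- A cycle in the graph of `B`. -/
theorem exists_cycle (B : Finset (G p)) (hB : 2 * p ≤ B.card) :
    ∃ (n : ℕ) (c : Fin (n + 3) → ZMod p ⊕ ZMod p) (b : Fin (n + 3) → B),
      Function.Injective c ∧ ∀ i, edge (b i : G p) = s(c i, c (i + 1)) := by
  classical
  let Γ : SimpleGraph (ZMod p ⊕ ZMod p) :=
    SimpleGraph.fromEdgeSet ((B.image edge : Finset (Sym2 (ZMod p ⊕ ZMod p))) : Set _)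
  have hedge : Γ.edgeFinset = B.image edge := by
    ext e
    rw [SimpleGraph.mem_edgeFinset, SimpleGraph.edgeSet_fromEdgeSet]
    constructor
    · rintro ⟨h1, -⟩
      exact_mod_cast h1
    · intro h1
      refine ⟨by exact_mod_cast h1, ?_⟩
      obtain ⟨b, -, rfl⟩ := Finset.mem_image.mp h1
      intro h2
      simp [edge] at h2
  have hcard : 2 * p ≤ Γ.edgeFinset.card := by
    rw [hedge, Finset.card_image_of_injective _ edge_injective]
    exact hB
  have hnot : ¬ Γ.IsAcyclic := by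
    intro hac
    obtain ⟨F, hle, hmax⟩ := SimpleGraph.exists_maximal_isAcyclic_of_le_isAcyclic
      (le_top : Γ ≤ ⊤) hac
    have hF : F.IsTree := by
      rw [← SimpleGraph.maximal_isAcyclic_iff_isTree]
      refine ⟨hmax.prop.2, fun H hH hFH => hmax.2 ⟨le_top, hH⟩ hFH⟩
    have h1 := hF.card_edgeFinset
    have h2 : Γ.edgeFinset.card ≤ F.edgeFinset.card :=
      Finset.card_le_card (SimpleGraph.edgeFinset_mono hle)
    rw [Fintype.card_sum, ZMod.card] at h1
    omega
  rw [SimpleGraph.isAcyclic_iff_free_cycleGraph] at hnot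
  push Not at hnot
  obtain ⟨m, hm, hfree⟩ := hnot
  obtain ⟨n, rfl⟩ : ∃ n, m = n + 3 := ⟨m - 3, by omega⟩
  obtain ⟨c⟩ := hfree
  have hadj : ∀ i : Fin (n + 3), Γ.Adj (c i) (c (i + 1)) := by
    intro i
    apply c.toHom.map_adj
    rw [SimpleGraph.cycleGraph_adj]
    right
    simp
  have hb : ∀ i : Fin (n + 3), ∃ b : B, edge (b : G p) = s(c i, c (i + 1)) := by
    intro i
    have := hadj i
    rw [SimpleGraph.fromEdgeSet_adj] at this
    have h1 : s(c i, c (i + 1)) ∈ B.image edge := by exact_mod_cast this.1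
    obtain ⟨b, hb, hbe⟩ := Finset.mem_image.mp h1
    exact ⟨⟨b, hb⟩, hbe⟩
  choose b hb using hb
  exact ⟨n, c, b, c.injective, hb⟩

omit [NeZero p] in
theorem b_injective {B : Finset (G p)} {n : ℕ} {c : Fin (n + 3) → ZMod p ⊕ ZMod p}
    {b : Fin (n + 3) → B} (hc : Function.Injective c)
    (hb : ∀ i, edge (b i : G p) = s(c i, c (i + 1))) : Function.Injective b := by
  intro i j hij
  have h := hb i
  rw [hij, hb j, Sym2.eq_iff] at h
  rcases h with ⟨h1, -⟩ | ⟨h1, h2⟩
  · exact (hc h1).symm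
  · have h1' := hc h1
    have h2' := hc h2
    exfalso
    have h3 : i + 1 + 1 = i := by rw [← h1', h2']
    have h4 : (1 + 1 : Fin (n + 3)) = 0 := by
      have : i + (1 + 1) = i + 0 := by rw [← add_assoc, h3, add_zero]
      exact add_left_cancel this
    have h5 := congrArg Fin.val h4
    rw [Fin.val_add, Fin.val_zero, Fin.val_one] at h5
    have : (1 + 1) % (n + 3) = 2 := Nat.mod_eq_of_lt (by omega)
    omega

/-! ### Test vectors supported on a cycle -/

/-- The vector with coefficient `k i` at `b i`. -/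
noncomputable def vec {B : Finset (G p)} {n : ℕ} (b : Fin (n + 3) → B) (k : Fin (n + 3) → ℂ) :
    EuclideanSpace ℂ B := ∑ i, k i • EuclideanSpace.single (b i) (1 : ℂ)

omit [NeZero p] in
theorem norm_sq_vec {B : Finset (G p)} {n : ℕ} {b : Fin (n + 3) → B} (hb : Function.Injective b)
    (k : Fin (n + 3) → ℂ) : ‖vec b k‖ ^ 2 = ∑ i, ‖k i‖ ^ 2 := by
  classical
  have hon : Orthonormal ℂ fun i => (EuclideanSpace.single (b i) (1 : ℂ) : EuclideanSpace ℂ B) := by
    have h1 := (EuclideanSpace.basisFun B ℂ).orthonormal.comp b hb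
    have h2 : (fun i => (EuclideanSpace.single (b i) (1 : ℂ) : EuclideanSpace ℂ B)) =
        (EuclideanSpace.basisFun B ℂ) ∘ b := by
      funext i
      simp
    rw [h2]
    exact h1
  have h1 := hon.inner_sum k k Finset.univ
  have h2 : (inner ℂ (vec b k) (vec b k)) = ((∑ i, ‖k i‖ ^ 2 : ℝ) : ℂ) := by
    rw [vec, h1]
    push_cast
    refine Finset.sum_congr rfl fun i _ => ?_
    rw [Complex.conj_mul']
  have h3 : ‖vec b k‖ ^ 2 = RCLike.re (inner ℂ (vec b k) (vec b k)) := norm_sq_eq_re_inner _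
  rw [h3, h2]
  exact Complex.ofReal_re _

theorem T_vec (E : Finset (G p)) {B : Finset (G p)} {n : ℕ} (b : Fin (n + 3) → B)
    (k : Fin (n + 3) → ℂ) (x : E) :
    T p E B (vec b k) x = ∑ i, k i * chr p (b i) x := by
  classical
  rw [vec, map_sum, WithLp.ofLp_sum, Finset.sum_apply]
  refine Finset.sum_congr rfl fun i _ => ?_
  rw [map_smul, PiLp.smul_apply, smul_eq_mul, T_apply, Finset.sum_eq_single (b i)]
  · rw [PiLp.single_apply, if_pos rfl, mul_one]
  · intro b' _ hb'
    rw [PiLp.single_apply, if_neg hb', mul_zero]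
  · intro h
    exact absurd (Finset.mem_univ _) h

theorem tele {n : ℕ} (P : Fin (n + 3) → Prop) [DecidablePred P] (hP : ∀ i, P (i + 1) ↔ ¬ P i)
    (g : Fin (n + 3) → ℂ) : ∑ i, g i = ∑ i, if P (i + 1) then g (i + 1) + g i else 0 := by
  have h1 : ∑ i, g i = ∑ i, (if P i then g i else 0) + ∑ i, (if ¬ P i then g i else 0) := by
    rw [← Finset.sum_add_distrib]
    refine Finset.sum_congr rfl fun i _ => ?_
    split_ifs <;> simp_all
  have h2 : ∑ i, (if P i then g i else 0) = ∑ i, (if P (i + 1) then g (i + 1) else 0) :=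
    (Equiv.sum_comp (Equiv.addRight (1 : Fin (n + 3))) fun i => if P i then g i else 0).symm
  rw [h1, h2, ← Finset.sum_add_distrib]
  refine Finset.sum_congr rfl fun i _ => ?_
  by_cases h : P (i + 1)
  · rw [if_pos h, if_pos h, if_pos ((hP i).mp h)]
  · rw [if_neg h, if_neg h, if_neg (fun h' => h ((hP i).mpr h')), add_zero]

theorem norm_sum_le {n : ℕ} (P : Fin (n + 3) → Prop) [DecidablePred P]
    (hP : ∀ i, P (i + 1) ↔ ¬ P i) (F k : Fin (n + 3) → ℂ) (hF1 : ∀ i, ‖F i‖ = 1)
    (hF : ∀ i, P (i + 1) → F (i + 1) = F i) :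
    ‖∑ i, k i * F i‖ ≤ ∑ i, ‖k (i + 1) + k i‖ := by
  rw [tele P hP]
  refine (_root_.norm_sum_le _ _).trans (Finset.sum_le_sum fun i _ => ?_)
  split_ifs with h
  · rw [hF i h, ← add_mul, norm_mul, hF1, mul_one]
  · rw [norm_zero]
    exact norm_nonneg _

omit [NeZero p] in
theorem ends {B : Finset (G p)} {n : ℕ} {c : Fin (n + 3) → ZMod p ⊕ ZMod p}
    {b : Fin (n + 3) → B} (hb : ∀ i, edge (b i : G p) = s(c i, c (i + 1))) (i : Fin (n + 3)) :
    (c i = Sum.inl (b i : G p).2 ∧ c (i + 1) = Sum.inr ((b i : G p).1 + (b i : G p).2)) ∨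
    (c i = Sum.inr ((b i : G p).1 + (b i : G p).2) ∧ c (i + 1) = Sum.inl (b i : G p).2) := by
  have h := hb i
  rw [edge, Sym2.eq_iff] at h
  rcases h with ⟨h1, h2⟩ | ⟨h1, h2⟩
  · exact Or.inl ⟨h1.symm, h2.symm⟩
  · exact Or.inr ⟨h2.symm, h1.symm⟩

/-- The rows other than `(1, 0)`. -/
theorem row_bound {B : Finset (G p)} {n : ℕ} {c : Fin (n + 3) → ZMod p ⊕ ZMod p}
    {b : Fin (n + 3) → B} (hb : ∀ i, edge (b i : G p) = s(c i, c (i + 1)))
    (k : Fin (n + 3) → ℂ) (x : G p) (hx : x ∈ En p) (hx1 : x ≠ (1, 0)) :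
    ‖∑ i, k i * chr p (b i) x‖ ≤ ∑ i, ‖k (i + 1) + k i‖ := by
  classical
  rw [En, Finset.mem_union, Finset.mem_union, Finset.mem_singleton] at hx
  rcases hx with (hx | hx) | hx
  · obtain ⟨t, -, rfl⟩ := Finset.mem_image.mp hx
    refine norm_sum_le (fun i => (c i).isLeft = true) (fun i => ?_) _ _
      (fun i => norm_chr _ _) (fun i hi => ?_)
    · rcases ends hb i with ⟨h1, h2⟩ | ⟨h1, h2⟩ <;> simp [h1, h2]
    · have h2 : c (i + 1) = Sum.inl (b i : G p).2 := by
        rcases ends hb i with ⟨h1, h2⟩ | ⟨h1, h2⟩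
        · rw [h2] at hi
          simp at hi
        · exact h2
      have h3 : c (i + 1) = Sum.inl (b (i + 1) : G p).2 := by
        rcases ends hb (i + 1) with ⟨h1, -⟩ | ⟨h1, -⟩
        · exact h1
        · rw [h1] at hi
          simp at hi
      have h4 : (b (i + 1) : G p).2 = (b i : G p).2 := Sum.inl_injective (h3.symm.trans h2)
      simp only [chr, h4, mul_zero, zero_add]
  · obtain ⟨t, -, rfl⟩ := Finset.mem_image.mp hx
    refine norm_sum_le (fun i => (c i).isRight = true) (fun i => ?_) _ _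
      (fun i => norm_chr _ _) (fun i hi => ?_)
    · rcases ends hb i with ⟨h1, h2⟩ | ⟨h1, h2⟩ <;> simp [h1, h2]
    · have h2 : c (i + 1) = Sum.inr ((b i : G p).1 + (b i : G p).2) := by
        rcases ends hb i with ⟨h1, h2⟩ | ⟨h1, h2⟩
        · exact h2
        · rw [h2] at hi
          simp at hi
      have h3 : c (i + 1) = Sum.inr ((b (i + 1) : G p).1 + (b (i + 1) : G p).2) := by
        rcases ends hb (i + 1) with ⟨h1, -⟩ | ⟨h1, -⟩
        · rw [h1] at hi
          simp at hi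
        · exact h1
      have h4 : (b (i + 1) : G p).1 + (b (i + 1) : G p).2 = (b i : G p).1 + (b i : G p).2 :=
        Sum.inr_injective (h3.symm.trans h2)
      simp only [chr, ← add_mul, h4]
  · exact absurd hx hx1

/-- Signs along the cycle. -/
noncomputable def sgn {n : ℕ} (c : Fin (n + 3) → ZMod p ⊕ ZMod p) (i : Fin (n + 3)) : ℂ :=
  if (c i).isLeft = true then 1 else -1

omit [NeZero p] in
theorem sgn_succ {B : Finset (G p)} {n : ℕ} {c : Fin (n + 3) → ZMod p ⊕ ZMod p}
    {b : Fin (n + 3) → B} (hb : ∀ i, edge (b i : G p) = s(c i, c (i + 1))) (i : Fin (n + 3)) :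
    sgn c (i + 1) = - sgn c i := by
  rcases ends hb i with ⟨h1, h2⟩ | ⟨h1, h2⟩ <;> simp [sgn, h1, h2]

omit [NeZero p] in
theorem norm_sgn {n : ℕ} (c : Fin (n + 3) → ZMod p ⊕ ZMod p) (i : Fin (n + 3)) :
    ‖sgn c i‖ = 1 := by
  rw [sgn]
  split_ifs <;> simp

/-- Two-valued profile along the cycle. -/
noncomputable def prof (m : ℕ) (α β : ℂ) {n : ℕ} (i : Fin (n + 3)) : ℂ :=
  if (i : ℕ) < m then α else β

theorem prof_diff (m : ℕ) (α β : ℂ) {n : ℕ} (i : Fin (n + 3)) :
    ‖prof m α β (i + 1) - prof m α β i‖ ≤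
      ‖α - β‖ * ((if (i : ℕ) = n + 2 then 1 else 0) + (if (i : ℕ) + 1 = m then 1 else 0)) := by
  have hnn := norm_nonneg (α - β)
  by_cases hi : (i : ℕ) = n + 2
  · rw [if_pos hi]
    have h1 : ‖prof m α β (i + 1) - prof m α β i‖ ≤ ‖α - β‖ := by
      rw [prof, prof]
      split_ifs <;> simp [norm_sub_rev β α]
    refine h1.trans ?_
    split_ifs <;> nlinarith
  · rw [if_neg hi, zero_add]
    have hlt := i.isLt
    have hv : ((i + 1 : Fin (n + 3)) : ℕ) = (i : ℕ) + 1 := by
      rw [Fin.val_add, Fin.val_one]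
      exact Nat.mod_eq_of_lt (by omega)
    rw [prof, prof, hv]
    by_cases hm : (i : ℕ) + 1 = m
    · rw [if_pos hm, if_neg (by omega), if_pos (by omega), mul_one, norm_sub_rev]
    · rw [if_neg hm, mul_zero]
      by_cases h2 : (i : ℕ) + 1 < m
      · rw [if_pos h2, if_pos (by omega), sub_self, norm_zero]
      · rw [if_neg h2, if_neg (by omega), sub_self, norm_zero]

theorem sum_prof_diff (m : ℕ) (α β : ℂ) {n : ℕ} :
    ∑ i : Fin (n + 3), ‖prof m α β (i + 1) - prof m α β i‖ ≤ 2 * ‖α - β‖ := by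
  refine (Finset.sum_le_sum fun i _ => prof_diff m α β i).trans ?_
  rw [← Finset.mul_sum, Finset.sum_add_distrib, mul_comm]
  have h1 : ∀ q : ℕ → ℕ → Prop, ∀ _ : DecidableRel q, (∀ i j : ℕ, q i m → q j m → i = j) →
      ∑ i : Fin (n + 3), (if q i m then (1 : ℝ) else 0) ≤ 1 := by
    intro q _ hq
    rw [Finset.sum_boole]
    have : #{i : Fin (n + 3) | q i m} ≤ 1 := by
      rw [Finset.card_le_one]
      intro a ha b hb
      exact Fin.ext (hq a b (Finset.mem_filter.mp ha).2 (Finset.mem_filter.mp hb).2)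
    exact_mod_cast this
  have h2 := h1 (fun i _ => i = n + 2) inferInstance (by intro i j hi hj; omega)
  have h3 := h1 (fun i m => i + 1 = m) inferInstance (by intro i j hi hj; omega)
  exact mul_le_mul_of_nonneg_right (by linarith) (norm_nonneg _)

/-! ### The main estimate -/

theorem En_card (hp : 2 ≤ p) : (En p).card = 2 * p := by
  classical
  have : Fact (1 < p) := ⟨by omega⟩
  set A := Finset.univ.image fun t : ZMod p => ((0, t) : G p) with hA
  set D := Finset.univ.image fun t : ZMod p => ((t, t) : G p) with hD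
  have hAc : A.card = p := by
    rw [hA, Finset.card_image_of_injective, Finset.card_univ, ZMod.card]
    intro x y h
    exact (Prod.mk.inj h).2
  have hDc : D.card = p := by
    rw [hD, Finset.card_image_of_injective, Finset.card_univ, ZMod.card]
    intro x y h
    exact (Prod.mk.inj h).2
  have hAD : A ∩ D = {((0, 0) : G p)} := by
    ext ⟨x, y⟩
    rw [Finset.mem_inter, hA, hD, Finset.mem_image, Finset.mem_image, Finset.mem_singleton]
    constructor
    · rintro ⟨⟨t, -, ht⟩, ⟨s, -, hs⟩⟩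
      obtain ⟨h1, h2⟩ := Prod.mk.inj ht
      obtain ⟨h3, h4⟩ := Prod.mk.inj hs
      rw [← h1, ← h4, h3, ← h1]
    · intro h
      obtain ⟨h1, h2⟩ := Prod.mk.inj h
      subst h1 h2
      exact ⟨⟨0, Finset.mem_univ _, rfl⟩, ⟨0, Finset.mem_univ _, rfl⟩⟩
  have h1 := Finset.card_union_add_card_inter A D
  rw [hAD, Finset.card_singleton, hAc, hDc] at h1
  have h2 : Disjoint (A ∪ D) {((1, 0) : G p)} := by
    rw [Finset.disjoint_singleton_right, Finset.mem_union]
    rintro (h | h)
    · obtain ⟨t, -, ht⟩ := Finset.mem_image.mp h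
      exact zero_ne_one (Prod.mk.inj ht).1
    · obtain ⟨t, -, ht⟩ := Finset.mem_image.mp h
      obtain ⟨h3, h4⟩ := Prod.mk.inj ht
      exact zero_ne_one (h4.symm.trans h3)
  rw [En, Finset.card_union_of_disjoint h2, Finset.card_singleton]
  omega

theorem mem_En_one : ((1, 0) : G p) ∈ En p := by
  rw [En, Finset.mem_union]
  exact Or.inr (Finset.mem_singleton_self _)

theorem main_bound (hp : 2 ≤ p) (B : Finset (G p)) (hB : B.card = 2 * p) :
    ENNReal.ofReal (√p / 8) ≤ rhoOf p (En p) B := by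
  classical
  obtain ⟨n, c, b, hc, hb⟩ := exists_cycle B hB.ge
  have hbinj := b_injective hc hb
  have hE : (En p).card = B.card := by rw [En_card hp, hB]
  have hBne : B.Nonempty := Finset.card_pos.mp (by omega)
  set o : En p := ⟨((1, 0) : G p), mem_En_one⟩ with ho
  -- coefficient vectors
  let K : ℕ → ℂ → ℂ → Fin (n + 3) → ℂ := fun m α β i => sgn c i * prof m α β i
  have hKsum : ∀ m α β, ∑ i, ‖K m α β (i + 1) + K m α β i‖ ≤ 2 * ‖α - β‖ := by
    intro m α β
    refine le_trans (le_of_eq (Finset.sum_congr rfl fun i _ => ?_)) (sum_prof_diff m α β (n := n))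
    change ‖sgn c (i + 1) * prof m α β (i + 1) + sgn c i * prof m α β i‖ = _
    rw [sgn_succ hb i]
    have : -sgn c i * prof m α β (i + 1) + sgn c i * prof m α β i =
        -(sgn c i) * (prof m α β (i + 1) - prof m α β i) := by ring
    rw [this, norm_mul, norm_neg, norm_sgn, one_mul]
  have hrow : ∀ m α β, ∀ x : En p, x ≠ o → ‖T p (En p) B (vec b (K m α β)) x‖ ≤ 2 * ‖α - β‖ := by
    intro m α β x hx
    rw [T_vec]
    refine (row_bound hb (K m α β) x x.2 ?_).trans (hKsum m α β)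
    intro h
    exact hx (Subtype.ext h)
  have hnorm : ∀ m α β, ‖vec b (K m α β)‖ ^ 2 = ∑ i : Fin (n + 3), ‖prof m α β i‖ ^ 2 := by
    intro m α β
    rw [norm_sq_vec hbinj]
    refine Finset.sum_congr rfl fun i _ => ?_
    rw [norm_mul, norm_sgn, one_mul]
  -- the plain alternating vector
  have hu1 : ‖vec b (K 0 1 1)‖ ^ 2 = (n + 3 : ℕ) := by
    rw [hnorm]
    simp [prof]
  have hune : vec b (K 0 1 1) ≠ 0 := by
    intro h
    rw [h, norm_zero] at hu1
    have : ((n + 3 : ℕ) : ℝ) ≠ 0 := Nat.cast_ne_zero.mpr (by omega)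
    exact this (by rw [← hu1]; norm_num)
  have hu0 : ∀ x : En p, x ≠ o → T p (En p) B (vec b (K 0 1 1)) x = 0 := by
    intro x hx
    have := hrow 0 1 1 x hx
    rw [sub_self, norm_zero, mul_zero] at this
    exact norm_le_zero_iff.mp this
  have huT : ‖T p (En p) B (vec b (K 0 1 1))‖ ^ 2 = ‖T p (En p) B (vec b (K 0 1 1)) o‖ ^ 2 := by
    rw [EuclideanSpace.norm_sq_eq, Finset.sum_eq_single o]
    · intro x _ hx
      rw [hu0 x hx, norm_zero]
      norm_num
    · intro h
      exact absurd (Finset.mem_univ _) h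
  have hsp : 0 ≤ √(p : ℝ) := Real.sqrt_nonneg _
  have hsq : √(p : ℝ) * √(p : ℝ) = p := Real.mul_self_sqrt (Nat.cast_nonneg _)
  have hsp1 : 1 ≤ √(p : ℝ) := by
    rw [show (1 : ℝ) = √1 by simp]
    exact Real.sqrt_le_sqrt (by exact_mod_cast (by omega : 1 ≤ p))
  by_cases hN : ((n + 3 : ℕ) : ℝ) ≤ 16 * √p
  · -- short cycle
    refine rhoOf_ge (En p) B hE hBne _ (vec b (K 0 1 1)) hune ?_
    have h1 : ‖T p (En p) B (vec b (K 0 1 1)) o‖ ≤ (n + 3 : ℕ) := by
      rw [T_vec]
      refine (_root_.norm_sum_le _ _).trans ?_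
      refine (Finset.sum_le_sum (g := fun _ => (1 : ℝ)) fun i _ => ?_).trans (le_of_eq (by simp))
      change ‖sgn c i * prof 0 1 1 i * chr p (b i) o‖ ≤ 1
      rw [norm_mul, norm_chr, norm_mul, norm_sgn]
      simp [prof]
    rw [huT, hu1, hB]
    have h2 : ‖T p (En p) B (vec b (K 0 1 1)) o‖ ^ 2 ≤ ((n + 3 : ℕ) : ℝ) * (16 * √p) := by
      rw [pow_two]
      exact mul_le_mul h1 (h1.trans hN) (norm_nonneg _) (Nat.cast_nonneg _)
    calc √p / 8 * ‖T p (En p) B (vec b (K 0 1 1)) o‖ ^ 2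
        ≤ √p / 8 * (((n + 3 : ℕ) : ℝ) * (16 * √p)) := by gcongr
      _ = 2 * (√p * √p) * ((n + 3 : ℕ) : ℝ) := by ring
      _ = ((2 * p : ℕ) : ℝ) * ((n + 3 : ℕ) : ℝ) := by rw [hsq]; push_cast; ring
  · -- long cycle
    push Not at hN
    set m := (n + 3) / 2 with hm
    let G1 : ℂ := T p (En p) B (vec b (K m 1 0)) o
    let G2 : ℂ := T p (En p) B (vec b (K m 0 1)) o
    have hlin : ∀ α β : ℂ, T p (En p) B (vec b (K m α β)) o = α * G1 + β * G2 := by
      intro α β
      change _ = α * T p (En p) B (vec b (K m 1 0)) o + β * T p (En p) B (vec b (K m 0 1)) o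
      rw [T_vec, T_vec, T_vec, Finset.mul_sum, Finset.mul_sum, ← Finset.sum_add_distrib]
      refine Finset.sum_congr rfl fun i _ => ?_
      change sgn c i * prof m α β i * _ = α * (sgn c i * prof m 1 0 i * _) +
        β * (sgn c i * prof m 0 1 i * _)
      rw [prof, prof, prof]
      split_ifs <;> ring
    by_cases hG : G1 = 0 ∧ G2 = 0
    · -- then `T` kills the alternating vector
      refine rhoOf_ge (En p) B hE hBne _ (vec b (K 0 1 1)) hune ?_
      have h1 : vec b (K 0 1 1) = vec b (K m 1 1) := by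
        congr 1
        funext i
        change sgn c i * prof 0 1 1 i = sgn c i * prof m 1 1 i
        simp [prof]
      have h2 : T p (En p) B (vec b (K 0 1 1)) o = 0 := by
        rw [h1, hlin, hG.1, hG.2]
        ring
      rw [huT, h2, norm_zero]
      calc √p / 8 * 0 ^ 2 = 0 := by ring
        _ ≤ _ := mul_nonneg (Nat.cast_nonneg _) (sq_nonneg _)
    · -- the combination orthogonal to the row `(1, 0)`
      set α : ℂ := G2 with hα
      set β : ℂ := -G1 with hβ
      have hpos : 0 < ‖α‖ ^ 2 + ‖β‖ ^ 2 := by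
        rw [not_and_or] at hG
        rcases hG with h | h
        · have : 0 < ‖β‖ := by rw [hβ, norm_neg]; exact norm_pos_iff.mpr h
          positivity
        · have : 0 < ‖α‖ := norm_pos_iff.mpr h
          positivity
      have ho0 : T p (En p) B (vec b (K m α β)) o = 0 := by
        rw [hlin, hα, hβ]
        ring
      have hall : ∀ x : En p, ‖T p (En p) B (vec b (K m α β)) x‖ ^ 2 ≤
          8 * (‖α‖ ^ 2 + ‖β‖ ^ 2) := by
        intro x
        have h1 : ‖T p (En p) B (vec b (K m α β)) x‖ ≤ 2 * (‖α‖ + ‖β‖) := by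
          by_cases hx : x = o
          · rw [hx, ho0, norm_zero]
            positivity
          · refine (hrow m α β x hx).trans ?_
            have := norm_sub_le α β
            linarith
        have h2 := pow_le_pow_left₀ (norm_nonneg _) h1 2
        nlinarith [sq_nonneg (‖α‖ - ‖β‖)]
      have hTn : ‖T p (En p) B (vec b (K m α β))‖ ^ 2 ≤ (2 * p : ℕ) * (8 * (‖α‖ ^ 2 + ‖β‖ ^ 2)) := by
        rw [EuclideanSpace.norm_sq_eq]
        refine (Finset.sum_le_sum fun x _ => hall x).trans (le_of_eq ?_)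
        rw [Finset.sum_const, Finset.card_univ, Fintype.card_coe, En_card hp, nsmul_eq_mul]
      have hvn : (m : ℝ) * (‖α‖ ^ 2 + ‖β‖ ^ 2) ≤ ‖vec b (K m α β)‖ ^ 2 := by
        rw [hnorm]
        have h1 : ∑ i : Fin (n + 3), ‖prof m α β i‖ ^ 2 =
            ∑ i ∈ Finset.range (n + 3), (if i < m then ‖α‖ ^ 2 else ‖β‖ ^ 2) := by
          rw [Finset.sum_range]
          refine Finset.sum_congr rfl fun i _ => ?_
          rw [prof]
          split_ifs <;> rfl
        have h2 : ∑ i ∈ Finset.range (m + m), (if i < m then ‖α‖ ^ 2 else ‖β‖ ^ 2) =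
            m * (‖α‖ ^ 2 + ‖β‖ ^ 2) := by
          rw [Finset.sum_range_add]
          rw [Finset.sum_congr rfl (g := fun _ => ‖α‖ ^ 2)
            (fun i hi => if_pos (Finset.mem_range.mp hi))]
          rw [Finset.sum_congr rfl (g := fun _ => ‖β‖ ^ 2)
            (fun i _ => if_neg (by omega : ¬ m + i < m))]
          rw [Finset.sum_const, Finset.sum_const, Finset.card_range, nsmul_eq_mul, nsmul_eq_mul]
          ring
        rw [h1, ← h2]
        apply Finset.sum_le_sum_of_subset_of_nonneg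
        · intro i hi
          rw [Finset.mem_range] at hi ⊢
          omega
        · intro i _ _
          split_ifs <;> positivity
      have hmpos : 0 < m := by omega
      have hvne : vec b (K m α β) ≠ 0 := by
        intro h
        rw [h, norm_zero] at hvn
        have : 0 < (m : ℝ) * (‖α‖ ^ 2 + ‖β‖ ^ 2) := by positivity
        norm_num at hvn
        linarith
      refine rhoOf_ge (En p) B hE hBne _ (vec b (K m α β)) hvne ?_
      have hmge : 2 * √p ≤ (m : ℝ) := by
        have h1 : n + 3 ≤ 2 * m + 1 := by omega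
        have h2 : ((n + 3 : ℕ) : ℝ) ≤ 2 * m + 1 := by exact_mod_cast h1
        linarith
      rw [hB]
      have hc0 : (0 : ℝ) ≤ ((2 * p : ℕ) : ℝ) := Nat.cast_nonneg _
      calc √p / 8 * ‖T p (En p) B (vec b (K m α β))‖ ^ 2
          ≤ √p / 8 * ((2 * p : ℕ) * (8 * (‖α‖ ^ 2 + ‖β‖ ^ 2))) := by gcongr
        _ = (2 * p : ℕ) * (√p * (‖α‖ ^ 2 + ‖β‖ ^ 2)) := by ring
        _ ≤ (2 * p : ℕ) * ((m : ℝ) * (‖α‖ ^ 2 + ‖β‖ ^ 2)) := by
            gcongr
            linarith
        _ ≤ (2 * p : ℕ) * ‖vec b (K m α β)‖ ^ 2 := by gcongr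

/-- **Q1 is true**: the Riesz ratio of `E_n` tends to infinity.  Here `Nat.nth Nat.Prime n` is, for
`n ≥ 1`, the `n`-th odd prime `p_n`. -/
theorem result :
    Tendsto (fun n : ℕ => rho (Nat.nth Nat.Prime n) (En (Nat.nth Nat.Prime n))) atTop (𝓝 ⊤) := by
  have h1 : ∀ n : ℕ, ENNReal.ofReal (√(Nat.nth Nat.Prime n : ℝ) / 8) ≤
      rho (Nat.nth Nat.Prime n) (En (Nat.nth Nat.Prime n)) := by
    intro n
    have h2 : 2 ≤ Nat.nth Nat.Prime n := (Nat.prime_nth_prime n).two_le
    rw [rho]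
    refine le_iInf₂ fun B hB => main_bound h2 B ?_
    rw [hB, En_card h2]
  refine tendsto_nhds_top_mono ?_ (Filter.Eventually.of_forall h1)
  apply ENNReal.tendsto_ofReal_atTop.comp
  apply Tendsto.atTop_div_const (by norm_num)
  apply Real.tendsto_sqrt_atTop.comp
  apply tendsto_natCast_atTop_atTop.comp
  exact (Nat.nth_strictMono Nat.infinite_setOfPred_prime).tendsto_atTop

end Pool.Agent.Results.MP_1b30fb_an.RieszRatioUnbounded
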